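import Pool.Agent.N339.BL.NormThin
import Pool.Agent.N514.CF.Pro
import Pool.Agent.N53.CF.All

/-!
# The section conjecture for norm-form curves of Kummer extensions along the convergents of a number

Let `k` be a finitely generated field of characteristic zero, for instance a number field, let
`u₀, u₁, w₀, w₁ ∈ k` with `u₀ w₁ ≠ u₁ w₀` and `d ≥ 3`.  For integers `x, y` put

`a = x u₀ + y u₁`, `b = x w₀ + y w₁`, `E = k(b ^ (1/d)) = k[T]/(T ^ d - b)`.

We say that `(x, y)` is good if `a ≠ 0`, `T ^ d - b` is irreducible over `k` and for ALL divisors `n` of `d`,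
ALL finite extensions `L` of `k` whose degree is not divisible by `gcd(n, d / gcd(2, d))`, ALL
`A_0, A_1, A_2 ∈ E` and ALL forms `Q` of degree `d / n` over `k` which do not vanish at the points of
intersection of the `d` conjugate lines `A_0 x_0 + A_1 x_1 + A_2 x_2 = 0` the plane curve of degree `d`

`X : N_{E/k}(A_0 x_0 + A_1 x_1 + A_2 x_2) = a Q(x_0, x_1, x_2) ⁿ`

has no point over `L`, and the fundamental groups of `X` over `L` (of its normalisation, if it is singular),
of all its open subcurves, and of all smooth curves (or varieties) over `L` which dominate it, have no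
sections over `G_L`.  So the section conjecture and its valuative form hold for all these curves over `L`,
`L = k` included if `n` is not prime to `d / gcd(2, d)`.

**Theorem.** Let `α ∈ (0, 1)` be a continued fraction normal number: `α` is irrational and its orbit under the Gauss
map `x ↦ 1/x - ⌊1/x⌋` is distributed according to the Gauss measure `dx / ((1 + x) log 2)`.  Almost all
numbers are continued fraction normal, and explicit ones are known (Adler, Keane, Smorodinsky).  Let
`p_n / q_n` be the convergents of `α`.  Then for ALL `k`, `u`, `w` and `d` the pair `(p_n, q_n)` is good for all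
`n` outside a set of density zero.

For example `a = p_n`, `E = k(q_n ^ (1/d))`: the curves
`N_{k(q_n^{1/d})/k}(A_0 x_0 + A_1 x_1 + A_2 x_2) = p_n Q ^ m`.  The condition on `α` does not depend on the
fields and curves.  There are only `O(log X)` pairs of size up to `X` in the sequence, and the fields `E`
are different for different `n`.  In `ThinNormCurves` and `RandomNormCurves` (helper339) all coefficients of
the polynomial which defines `E` vary independently; the pairs considered here lie on a plane in that space.

The fundamental group is described through valuations.  Let `U` be a smooth geometrically connected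
curve over `k` with function field `F`, let `Ω` be an algebraic closure of `F`, and let `F_U` be the
maximal extension of `F` inside `Ω` which is unramified over the closed points of `U`, that is, over
their local rings, which are valuation rings of `F`.  Then `π₁(U) = Gal(F_U/F)`, and the map
`π₁(U) → G_k` is the restriction of automorphisms to the algebraic closure of `k` in `Ω`.

Proof.  Let `R ⊆ k` be a finitely generated ring with field of fractions `k` that contains `u` and `w`.  There
are a number field `K` and a homomorphism `P : R → K` such that for almost all primes `v` of `K` there is an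
embedding `k → K_v` which is congruent to `P` modulo `v²` on `R` (helper92).  Let `v` be unramified of degree
one over `p`, and `p ≡ 1` modulo `d`; the sum of the `1 / p` for such `p` diverges (primes of degree one of the
cyclotomic extension of `K`).  If `v(P(a)) = 1` and `P(b) ^ ((p - 1) / d)` has order `d` modulo `v`, then
`T ^ d - b` is irreducible modulo `v`, since the Frobenius multiplies its roots by a root of unity of order
`d`, and the local theorem of the library (`Pool.Agent.TH377.NC.Local`) applies as in `ThinNormCurves`.
These conditions define a set of classes of `(x, y)` modulo `p²` of density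
`(1/d) (1 - 1/p) ² / p`, so that the set of the `(x, y)` which are not good is pronull: its closure in the
product of the `ℤ_p × ℤ_p` over all primes `p` outside any finite set has Haar measure zero
(`good_pronull` below).  By the engine of helper53 (campaign CF) the convergents of a continued fraction
normal number avoid every pronull set, up to a set of density zero.
-/

set_option autoImplicit false

open Polynomial MeasureTheory Filter Topology
open Pool.Agent.N24.RW (ProNull)
open Pool.Agent.N53.CF (CFNormal cvg)
open Pool.Agent.W811.Stu (dig)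

namespace Pool.Agent.Results.MP_896029_ag.ConvergentsOfNormalNumbers

universe u v w y

section definitions

variable (k : Type u) (F : Type v) (Ω : Type w) [Field k] [Field F] [Field Ω] [Algebra k F]
  [Algebra F Ω] [Algebra k Ω]

/-- The inertia group of the valuation ring `W` of `Ω`, as a subgroup of `Gal(Ω/F)`: the
automorphisms of `Ω` over `F` that map `W` onto itself and act as the identity on its residue
field. -/
noncomputable def inertia (W : ValuationSubring Ω) : Subgroup (Ω ≃ₐ[F] Ω) :=
  (W.inertiaSubgroup F).map (W.decompositionSubgroup F).subtype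

/-- `F_U`, for a set `U` of valuation rings of `F`: the elements of `Ω` fixed by the inertia groups
of all valuation rings `W` of `Ω` with `W ∩ F ∈ U`.  If `Ω` is an algebraic closure of a field `F`
of characteristic zero, this is the maximal extension of `F` in `Ω` unramified over `U`. -/
noncomputable def unramified (U : Set (ValuationSubring F)) : IntermediateField F Ω :=
  ⨅ W : {W : ValuationSubring Ω // W.comap (algebraMap F Ω) ∈ U},
    IntermediateField.fixedField (inertia F Ω W.1)

/-- The map `τ : M → M` acts as `σ : K → K` on the elements that the fields `K` and `M` have in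
common when they are regarded as subfields of `Ω` through `i` and `j`. -/
def ActsAs {K M Ω : Type*} [Field K] [Field M] [Field Ω] (i : K →+* Ω) (j : M →+* Ω) (σ : K → K)
    (τ : M → M) : Prop :=
  ∀ c z, j z = i c → j (τ z) = i (σ c)

/-- Let `k ⊆ K ⊆ Ω` and `F ⊆ M ⊆ Ω` be fields.  A splitting of `Gal(M/F) → Gal(K/k)`: a continuous
homomorphism `s` from `Gal(K/k)` to `Gal(M/F)` such that `s(σ)` acts as `σ` on the elements of
`K ∩ M`. -/
structure Splitting (K M : Type*) [Field K] [Field M] [Algebra k K] [Algebra F M] [Algebra K Ω]
    [Algebra M Ω] where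
  /-- the homomorphism `Gal(K/k) → Gal(M/F)` -/
  toHom : (K ≃ₐ[k] K) →* (M ≃ₐ[F] M)
  cont : Continuous toHom
  compat : ∀ σ : K ≃ₐ[k] K, ActsAs (algebraMap K Ω) (algebraMap M Ω) σ (toHom σ)

/-- The sections of `π₁(U) = Gal(F_U/F) → G_k`: the continuous homomorphisms `s` from
`G_k = Gal(k̄/k)` to `Gal(F_U/F)`, where `k̄` is the algebraic closure of `k` in `Ω`, such that
`s(σ)` acts as `σ` on the elements of `k̄`. -/
def GaloisSection (U : Set (ValuationSubring F)) : Type w :=
  Splitting k F Ω (algebraicClosure k Ω) (unramified F Ω U)

end definitions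

section curves

variable {K : Type u} [Field K]

/-- The equation `N(A₀ x₀ + A₁ x₁ + A₂ x₂) = a Q(x₀, x₁, x₂)ⁿ` for the norm `N` of the algebra
`K[T]/(f)`, at a vector `x` with entries in an algebraically closed field `Ω` over `K`: the norm is the
product over the roots `θ` of `f` in `Ω` of the `A₀(θ) x₀ + A₁(θ) x₁ + A₂(θ) x₂`. -/
def OnCurve {Ω : Type*} [Field Ω] [Algebra K Ω] (f : K[X]) (A : Fin 3 → K[X]) (a : K)
    (Q : MvPolynomial (Fin 3) K) (n : ℕ) (x : Fin 3 → Ω) : Prop :=
  ((f.aroots Ω).map fun θ => ∑ j, aeval θ (A j) * x j).prod =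
    algebraMap K Ω a * MvPolynomial.aeval x Q ^ n

/-- The form `Q` does not vanish at the points of intersection of two of the lines
`A₀(θ) x₀ + A₁(θ) x₁ + A₂(θ) x₂ = 0`, for the roots `θ` of `f`.  (In particular these lines are
different.) -/
def Transversal (f : K[X]) (A : Fin 3 → K[X]) (Q : MvPolynomial (Fin 3) K) : Prop :=
  ∀ θ θ' : AlgebraicClosure K, aeval θ f = 0 → aeval θ' f = 0 → θ ≠ θ' →
    MvPolynomial.aeval (crossProduct (fun j => aeval θ (A j)) (fun j => aeval θ' (A j))) Q ≠ 0

/-- The curve has no point over `L`. -/
def NoPoint (L : Type y) [Field L] [Algebra K L] (f : K[X]) (A : Fin 3 → K[X]) (a : K)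
    (Q : MvPolynomial (Fin 3) K) (n : ℕ) : Prop :=
  ∀ x : Fin 3 → L, x ≠ 0 → ¬ OnCurve f A a Q n fun j => algebraMap L (AlgebraicClosure L) (x j)

/-- Let `F` be any field over `L` that contains a point of the curve, for instance the function field
of the curve over `L`, or of a curve that dominates it, and let `Ω` be an algebraic closure of `F`.
Then for every set `U` of valuation rings of `F` over `L` there is no section of `π₁(U) → G_L`.  If `F`
is the function field of the curve, such `U` are given by its normalisation and by all its open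
subcurves. -/
def NoSection (L : Type y) [Field L] [Algebra K L] (f : K[X]) (A : Fin 3 → K[X]) (a : K)
    (Q : MvPolynomial (Fin 3) K) (n : ℕ) : Prop :=
  ∀ (F : Type v) (Ω : Type w) [Field F] [Field Ω] [Algebra L F] [Algebra F Ω] [Algebra L Ω]
    [Algebra K Ω] [IsScalarTower L F Ω] [IsScalarTower K L Ω] [IsAlgClosure F Ω] (x : Fin 3 → F)
    (U : Set (ValuationSubring F)), x ≠ 0 → OnCurve f A a Q n (fun j => algebraMap F Ω (x j)) →
      (∀ O ∈ U, ∀ c : L, algebraMap L F c ∈ O) → IsEmpty (GaloisSection L F Ω U)

end curves

/-- All assertions about `a` and `f`, `f` of degree `d`: `a ≠ 0`, the polynomial `f` is irreducible over `k`,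
and for all `n`, `q` with `n q = d`, all finite extensions `L` of `k` such that `gcd(n, d / gcd(2, d))` does not
divide `[L : k]`, all `A_0, A_1, A_2 ∈ k[T]/(f)` and all forms `Q` of degree `q` over `k` that do not vanish at
the points of intersection of the conjugate lines, the curve `N(A_0 x_0 + A_1 x_1 + A_2 x_2) = a Qⁿ` has no
points and no sections over `L`. -/
def Holds {k : Type} [Field k] (d : ℕ) (a : k) (f : k[X]) : Prop :=
  a ≠ 0 ∧ Irreducible f ∧
    ∀ n q : ℕ, n * q = d → ∀ (L : Type y) [Field L] [Algebra k L] [FiniteDimensional k L],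
      ¬ Nat.gcd n (d / Nat.gcd 2 d) ∣ Module.finrank k L →
        ∀ (A : Fin 3 → k[X]) (Q : MvPolynomial (Fin 3) k), Q.IsHomogeneous q →
          Transversal f A Q →
            NoPoint L f A a Q n ∧ NoSection.{0, v, w, y} L f A a Q n

/-- The field `k` is finitely generated (as a field). -/
def FinitelyGenerated (k : Type) [Field k] : Prop :=
  ∃ s : Finset k, Subfield.closure (s : Set k) = ⊤

/-- The assertions about the norm-form curves with `a = x_0 u_0 + x_1 u_1` and
`f = T ^ d - (x_0 w_0 + x_1 w_1)`. -/
def Good {k : Type} [Field k] (u w : Fin 2 → k) (d : ℕ) (x : Fin 2 → ℤ) : Prop :=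
  Holds.{v, w, y} d ((x 0 : k) * u 0 + (x 1 : k) * u 1)
    (X ^ d - C ((x 0 : k) * w 0 + (x 1 : k) * w 1))

section proof

open Pool.Agent.TH377.Sup Pool.Agent.N339.BS Pool.Agent.N339.BL Pool.Agent.N514.CF

/-- the assertions of the helper files -/
theorem good_of_goodL {k : Type} [Field k] [CharZero k] {d : ℕ} (hd : 0 < d) (u w : Fin 2 → k)
    (x : Fin 2 → ℤ) (h : GoodL k d (kv d ((x 0 : k) * u 0 + (x 1 : k) * u 1)
      ((x 0 : k) * w 0 + (x 1 : k) * w 1))) : Good.{v, w, y} u w d x := by
  obtain ⟨h1, h2, h3, h4⟩ := h
  have e1 : (pol fun i : Fin (d + 1) => algebraMap k k (kv d ((x 0 : k) * u 0 + (x 1 : k) * u 1)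
      ((x 0 : k) * w 0 + (x 1 : k) * w 1) i.succ)) =
      X ^ d - C ((x 0 : k) * w 0 + (x 1 : k) * w 1) := pol_kf d hd _
  rw [e1] at h3 h4
  refine ⟨h1, h3, fun n q hnq L _ _ _ hL A Q hQ htr => ?_⟩
  obtain ⟨g1, g2⟩ := normAll_of_data.{v, w, y} d hd _ _ h4 n q hnq L hL A Q hQ htr
  refine ⟨fun x hx hon => g1 x hx hon, ?_⟩
  intro F Ω _ _ _ _ _ _ _ _ _ x U hx hon hU
  exact ⟨fun s => (g2 F Ω x U hx hon hU).false ⟨s.toHom, s.cont, s.compat⟩⟩

/-- the exceptional pairs are pronull -/
theorem good_pronull (k : Type) [Field k] [CharZero k] (hk : FinitelyGenerated k) (u w : Fin 2 → k)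
    (hdet : u 0 * w 1 ≠ u 1 * w 0) (d : ℕ) (hd : 3 ≤ d) :
    ProNull {x : Fin 2 → ℤ | ¬ Good.{v, w, y} u w d x} := by
  refine (Pool.Agent.N24.RW.clo (Fin 2)).1 _ _ ?_
    (Pool.Agent.N514.CF.pro_K hk (u 0) (u 1) (w 0) (w 1) (sub_ne_zero.mpr hdet) d hd)
  exact fun x hx hg => hx (good_of_goodL.{v, w, y} (by omega) u w x hg)

end proof

/-- Let `α` be a continued fraction normal number with convergents `p_n / q_n`.  For all finitely generated
fields `k` of characteristic zero, all linearly independent `u, w ∈ k ^ 2` and all `d ≥ 3` let
`a = p_n u_0 + q_n u_1`, `b = p_n w_0 + q_n w_1`.  For all `n` outside a set of density zero `a ≠ 0`, `T ^ d - b` is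
irreducible, and the norm-form curves `N_{E/k}(A_0 x_0 + A_1 x_1 + A_2 x_2) = a Q ^ m` of
`E = k[T]/(T ^ d - b)` satisfy the assertions `Holds`. -/
theorem result (α : ℝ) (hα : CFNormal α) (k : Type) [Field k] [CharZero k]
    (hk : FinitelyGenerated k) (u w : Fin 2 → k) (hdet : u 0 * w 1 ≠ u 1 * w 0) (d : ℕ)
    (hd : 3 ≤ d) :
    Tendsto (fun N : ℕ =>
      ({n : ℕ | n < N ∧ ¬ Good.{v, w, y} u w d (cvg (dig α) n)}.ncard : ℝ) / (N : ℝ))
      atTop (𝓝 0) :=
  Pool.Agent.N53.CF.main {x : Fin 2 → ℤ | ¬ Good.{v, w, y} u w d x}
    (good_pronull.{v, w, y} k hk u w hdet d hd) α hα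

end Pool.Agent.Results.MP_896029_ag.ConvergentsOfNormalNumbers
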