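import Pool.Agent.N339.BL.NormThin
import Pool.Agent.N339.BL.Orb

/-!
# The section conjecture for norm-form curves along random orbits of thin groups

Let `k` be a finitely generated field of characteristic zero, for instance a number field, and let
`e_0, …, e_{m-1} ∈ k`, not all zero (for instance `m = 1`, `e_0 = 1`, or an integral basis of a number field).
For an integral matrix `x = (x_{i j})`, `i ≤ d + 1`, `j < m`, let `c_i = ∑_j x_{i j} e_j` and
`f = c_1 + c_2 T + … + c_{d+1} T ^ d`, `d ≥ 3`.  We say that `x` is good if `c_0 ≠ 0`, the polynomial `f` is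
irreducible of degree `d` over `k`, and the field `E = k[T]/(f)` has the following property: for ALL divisors
`n` of `d`, ALL finite extensions `L` of `k` whose degree is not divisible by `gcd(n, d / gcd(2, d))`, ALL
`A_0, A_1, A_2 ∈ E` and ALL forms `Q` of degree `d / n` over `k` which do not vanish at the points of
intersection of the `d` conjugate lines `A_0 x_0 + A_1 x_1 + A_2 x_2 = 0` the plane curve of degree `d`

`X : N_{E/k}(A_0 x_0 + A_1 x_1 + A_2 x_2) = c_0 Q(x_0, x_1, x_2) ⁿ`

has no point over `L`, and the fundamental groups of `X` over `L` (of its normalisation, if it is singular),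
of all its open subcurves, and of all smooth curves (or varieties) over `L` which dominate it, have no
sections over `G_L`.  So the section conjecture and its valuative form hold for all these curves over `L`,
`L = k` included if `n` is not prime to `d / gcd(2, d)`.

**Theorem.** (1) For all `k`, `e` and `d` the set of the `x` which are not good is pronull: its closure in
the product of the `ℤ_p ^ ((d + 2) m)` over all primes `p` outside any finite set has Haar measure zero.
(2) Let `s_0, …, s_r` be integral matrices of determinant one, of size `(d + 2) m`, which generate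
`SL(ℤ/q)` for all `q` prime to some `q₀` (by strong approximation all generators of Zariski dense
subgroups have this property, also of thin subgroups, of infinite index), let `v ≠ 0` be an integral vector
of length `(d + 2) m` and let `x(n)` be its random orbit: `x(0) = v`, `x(n + 1) = s_{w(n)} x(n)` with
independent, uniformly distributed `w(n)`.  For almost every word `w`, for ALL finitely generated fields `k`
of characteristic zero and ALL `e ∈ k ^ m`, `e ≠ 0`, at once, `x(n)` is good for all `n` outside a set of
density zero.

Only a logarithmically small proportion of the integral vectors of size `e ^ (C n)` occurs in the orbit.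
In `ThinNormCurves` the coefficients were integer parts of generalised polynomials.

The fundamental group is described through valuations.  Let `U` be a smooth geometrically connected
curve over `k` with function field `F`, let `Ω` be an algebraic closure of `F`, and let `F_U` be the
maximal extension of `F` inside `Ω` which is unramified over the closed points of `U`, that is, over
their local rings, which are valuation rings of `F`.  Then `π₁(U) = Gal(F_U/F)`, and the map
`π₁(U) → G_k` is the restriction of automorphisms to the algebraic closure of `k` in `Ω`.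

Proof.  As for `ThinNormCurves`, `x` is good if modulo `p²` it is in a set of residue classes `Ω_p` of density
at least `(1/4d) (1/p - 1/p²)`, for the primes `p` such that there is a prime of degree one over `p` of a
certain number field.  The sum over these primes diverges, which gives (1).  By the engine of helper24
random orbits almost never meet pronull sets.  There are only countably many fields `k` and elements `e`
up to isomorphism, which gives (2).
-/

set_option autoImplicit false

open Polynomial MeasureTheory Filter Topology
open Pool.Agent.N24.RW (Walk orb words ProNull)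

namespace Pool.Agent.Results.MP_896029_ag.RandomNormCurves

universe u v w y

section definitions

variable (k : Type u) (F : Type v) (Ω : Type w) [Field k] [Field F] [Field Ω] [Algebra k F]
  [Algebra F Ω] [Algebra k Ω]

/-- The inertia group of the valuation ring `W` of `Ω`, as a subgroup of `Gal(Ω/F)`: the
automorphisms of `Ω` over `F` that map `W` onto itself and act as the identity on its residue
field. -/
noncomputable def inertia (W : ValuationSubring Ω) : Subgroup (Ω ≃ₐ[F] Ω) :=
  (W.inertiaSubgroup F).map (W.decompositionSubgroup F).subtype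

/-- `F_U`, for a set `U` of valuation rings of `F`: the elements of `Ω` fixed by the inertia groups
of all valuation rings `W` of `Ω` with `W ∩ F ∈ U`.  If `Ω` is an algebraic closure of a field `F`
of characteristic zero, this is the maximal extension of `F` in `Ω` unramified over `U`. -/
noncomputable def unramified (U : Set (ValuationSubring F)) : IntermediateField F Ω :=
  ⨅ W : {W : ValuationSubring Ω // W.comap (algebraMap F Ω) ∈ U},
    IntermediateField.fixedField (inertia F Ω W.1)

/-- The map `τ : M → M` acts as `σ : K → K` on the elements that the fields `K` and `M` have in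
common when they are regarded as subfields of `Ω` through `i` and `j`. -/
def ActsAs {K M Ω : Type*} [Field K] [Field M] [Field Ω] (i : K →+* Ω) (j : M →+* Ω) (σ : K → K)
    (τ : M → M) : Prop :=
  ∀ c z, j z = i c → j (τ z) = i (σ c)

/-- Let `k ⊆ K ⊆ Ω` and `F ⊆ M ⊆ Ω` be fields.  A splitting of `Gal(M/F) → Gal(K/k)`: a continuous
homomorphism `s` from `Gal(K/k)` to `Gal(M/F)` such that `s(σ)` acts as `σ` on the elements of
`K ∩ M`. -/
structure Splitting (K M : Type*) [Field K] [Field M] [Algebra k K] [Algebra F M] [Algebra K Ω]
    [Algebra M Ω] where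
  /-- the homomorphism `Gal(K/k) → Gal(M/F)` -/
  toHom : (K ≃ₐ[k] K) →* (M ≃ₐ[F] M)
  cont : Continuous toHom
  compat : ∀ σ : K ≃ₐ[k] K, ActsAs (algebraMap K Ω) (algebraMap M Ω) σ (toHom σ)

/-- The sections of `π₁(U) = Gal(F_U/F) → G_k`: the continuous homomorphisms `s` from
`G_k = Gal(k̄/k)` to `Gal(F_U/F)`, where `k̄` is the algebraic closure of `k` in `Ω`, such that
`s(σ)` acts as `σ` on the elements of `k̄`. -/
def GaloisSection (U : Set (ValuationSubring F)) : Type w :=
  Splitting k F Ω (algebraicClosure k Ω) (unramified F Ω U)

end definitions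

section curves

variable {K : Type u} [Field K]

/-- The equation `N(A₀ x₀ + A₁ x₁ + A₂ x₂) = a Q(x₀, x₁, x₂)ⁿ` for the norm `N` of the algebra
`K[T]/(f)`, at a vector `x` with entries in an algebraically closed field `Ω` over `K`: the norm is the
product over the roots `θ` of `f` in `Ω` of the `A₀(θ) x₀ + A₁(θ) x₁ + A₂(θ) x₂`. -/
def OnCurve {Ω : Type*} [Field Ω] [Algebra K Ω] (f : K[X]) (A : Fin 3 → K[X]) (a : K)
    (Q : MvPolynomial (Fin 3) K) (n : ℕ) (x : Fin 3 → Ω) : Prop :=
  ((f.aroots Ω).map fun θ => ∑ j, aeval θ (A j) * x j).prod =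
    algebraMap K Ω a * MvPolynomial.aeval x Q ^ n

/-- The form `Q` does not vanish at the points of intersection of two of the lines
`A₀(θ) x₀ + A₁(θ) x₁ + A₂(θ) x₂ = 0`, for the roots `θ` of `f`.  (In particular these lines are
different.) -/
def Transversal (f : K[X]) (A : Fin 3 → K[X]) (Q : MvPolynomial (Fin 3) K) : Prop :=
  ∀ θ θ' : AlgebraicClosure K, aeval θ f = 0 → aeval θ' f = 0 → θ ≠ θ' →
    MvPolynomial.aeval (crossProduct (fun j => aeval θ (A j)) (fun j => aeval θ' (A j))) Q ≠ 0

/-- The curve has no point over `L`. -/
def NoPoint (L : Type y) [Field L] [Algebra K L] (f : K[X]) (A : Fin 3 → K[X]) (a : K)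
    (Q : MvPolynomial (Fin 3) K) (n : ℕ) : Prop :=
  ∀ x : Fin 3 → L, x ≠ 0 → ¬ OnCurve f A a Q n fun j => algebraMap L (AlgebraicClosure L) (x j)

/-- Let `F` be any field over `L` that contains a point of the curve, for instance the function field
of the curve over `L`, or of a curve that dominates it, and let `Ω` be an algebraic closure of `F`.
Then for every set `U` of valuation rings of `F` over `L` there is no section of `π₁(U) → G_L`.  If `F`
is the function field of the curve, such `U` are given by its normalisation and by all its open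
subcurves. -/
def NoSection (L : Type y) [Field L] [Algebra K L] (f : K[X]) (A : Fin 3 → K[X]) (a : K)
    (Q : MvPolynomial (Fin 3) K) (n : ℕ) : Prop :=
  ∀ (F : Type v) (Ω : Type w) [Field F] [Field Ω] [Algebra L F] [Algebra F Ω] [Algebra L Ω]
    [Algebra K Ω] [IsScalarTower L F Ω] [IsScalarTower K L Ω] [IsAlgClosure F Ω] (x : Fin 3 → F)
    (U : Set (ValuationSubring F)), x ≠ 0 → OnCurve f A a Q n (fun j => algebraMap F Ω (x j)) →
      (∀ O ∈ U, ∀ c : L, algebraMap L F c ∈ O) → IsEmpty (GaloisSection L F Ω U)

end curves

/-- The polynomial `c_1 + c_2 T + … + c_{d+1} T ^ d`. -/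
noncomputable def poly {k : Type} [Field k] {d : ℕ} (c : Fin (d + 2) → k) : k[X] :=
  ∑ i : Fin (d + 1), C (c i.succ) * X ^ (i : ℕ)

/-- All assertions about the vector `c`: `c_0 ≠ 0`, the polynomial `f = c_1 + c_2 T + … + c_{d+1} T ^ d` is
irreducible of degree `d` over `k`, and for all `n`, `q` with `n q = d`, all finite extensions `L` of `k` such
that `gcd(n, d / gcd(2, d))` does not divide `[L : k]`, all `A_0, A_1, A_2 ∈ k[T]/(f)` and all forms `Q` of
degree `q` over `k` that do not vanish at the points of intersection of the conjugate lines, the curve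
`N(A_0 x_0 + A_1 x_1 + A_2 x_2) = c_0 Qⁿ` has no points and no sections over `L`. -/
def Holds {k : Type} [Field k] (d : ℕ) (c : Fin (d + 2) → k) : Prop :=
  c 0 ≠ 0 ∧ (poly c).natDegree = d ∧ Irreducible (poly c) ∧
    ∀ n q : ℕ, n * q = d → ∀ (L : Type y) [Field L] [Algebra k L] [FiniteDimensional k L],
      ¬ Nat.gcd n (d / Nat.gcd 2 d) ∣ Module.finrank k L →
        ∀ (A : Fin 3 → k[X]) (Q : MvPolynomial (Fin 3) k), Q.IsHomogeneous q →
          Transversal (poly c) A Q →
            NoPoint L (poly c) A (c 0) Q n ∧ NoSection.{0, v, w, y} L (poly c) A (c 0) Q n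

/-- The field `k` is finitely generated (as a field). -/
def FinitelyGenerated (k : Type) [Field k] : Prop :=
  ∃ s : Finset k, Subfield.closure (s : Set k) = ⊤

/-- The vector `(c_0, …, c_{d+1})`, `c_i = ∑_j x_{i j} e_j`. -/
def coeffs {k : Type} [Field k] {m : ℕ} (e : Fin m → k) {d : ℕ} (x : Fin (d + 2) × Fin m → ℤ) :
    Fin (d + 2) → k :=
  fun i => ∑ j : Fin m, (x (i, j) : k) * e j

section proof

open Pool.Agent.TH377.Sup Pool.Agent.N339.BS Pool.Agent.N339.BL

/-- the assertions of the helper files -/
theorem holds_of_good {k : Type} [Field k] [CharZero k] {d : ℕ} (hd : 0 < d)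
    {c : Fin (d + 2) → k} (h : GoodL k d c) : Holds.{v, w, y} d c := by
  obtain ⟨h1, h2, h3, h4⟩ := h
  refine ⟨h1, pol_natDegree _ h2, h3, fun n q hnq L _ _ _ hL A Q hQ htr => ?_⟩
  obtain ⟨g1, g2⟩ := normAll_of_data.{v, w, y} d hd _ _ h4 n q hnq L hL A Q hQ htr
  refine ⟨fun x hx hon => g1 x hx hon, ?_⟩
  intro F Ω _ _ _ _ _ _ _ _ _ x U hx hon hU
  exact ⟨fun s => (g2 F Ω x U hx hon hU).false ⟨s.toHom, s.cont, s.compat⟩⟩

end proof

/-- Integral matrices `x` of size `(d + 2) × m` give the coefficients `c_i = ∑_j x_{i j} e_j` of norm-form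
curves over a finitely generated field `k` with elements `e_j`.  (1) The set of the `x` for which the
assertions `Holds` are not true is pronull.  (2) For almost all random orbits of a nonzero vector under a
finite family of matrices that generates `SL(ℤ/q)` for all `q` prime to some `q₀`, for all finitely
generated fields `k` of characteristic zero and all `e ∈ k ^ m`, `e ≠ 0`, at once, the assertions are true at
all times outside a set of density zero. -/
theorem result :
    (∀ (k : Type) [Field k] [CharZero k], FinitelyGenerated k → ∀ (m : ℕ) (e : Fin m → k), e ≠ 0 →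
      ∀ d : ℕ, 3 ≤ d → ProNull {x : Fin (d + 2) × Fin m → ℤ | ¬ Holds.{v, w, y} d (coeffs e x)}) ∧
    ∀ (d m : ℕ), 3 ≤ d → ∀ (W : Walk (Fin (d + 2) × Fin m)) (v : Fin (d + 2) × Fin m → ℤ), v ≠ 0 →
      ∀ᵐ w ∂(words W.m), ∀ (k : Type) [Field k] [CharZero k], FinitelyGenerated k →
        ∀ e : Fin m → k, e ≠ 0 → Tendsto (fun N : ℕ =>
          ({n : ℕ | n < N ∧ ¬ Holds.{v, w, y} d (coeffs e (orb W v w n))}.ncard : ℝ) / (N : ℝ))
          atTop (𝓝 0) := by
  refine ⟨fun k _ _ hk m e he d hd => ?_, fun d m hd W v hv => ?_⟩
  · refine (Pool.Agent.N24.RW.clo (Fin (d + 2) × Fin m)).1 _ _ ?_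
      (Pool.Agent.N339.BL.pro_L hk e he d hd)
    exact fun x hx hg => hx (holds_of_good.{v, w, y} (by omega) hg)
  · filter_upwards [Pool.Agent.N339.BL.almost_L d m hd W v hv] with w hw
    intro k _ _ hk e he
    refine squeeze_zero (fun N => by positivity) (fun N => ?_) (hw k hk e he)
    have hsub : {n : ℕ | n < N ∧ ¬ Holds.{v, w, y} d (coeffs e (orb W v w n))} ⊆
        {n : ℕ | n < N ∧ ¬ Pool.Agent.N339.BL.GoodL k d
          (Pool.Agent.N339.BL.ovec e (orb W v w n))} := by
      rintro n ⟨hn, hn'⟩
      exact ⟨hn, fun hg => hn' (holds_of_good.{v, w, y} (by omega) hg)⟩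
    have hfin : {n : ℕ | n < N ∧ ¬ Pool.Agent.N339.BL.GoodL k d
        (Pool.Agent.N339.BL.ovec e (orb W v w n))}.Finite :=
      (Set.finite_lt_nat N).subset fun i hi => hi.1
    have h1 : ({n : ℕ | n < N ∧ ¬ Holds.{v, w, y} d (coeffs e (orb W v w n))}.ncard : ℝ) ≤
        ({n : ℕ | n < N ∧ ¬ Pool.Agent.N339.BL.GoodL k d
          (Pool.Agent.N339.BL.ovec e (orb W v w n))}.ncard : ℝ) := by
      exact_mod_cast Set.ncard_le_ncard hsub hfin
    exact div_le_div_of_nonneg_right h1 (Nat.cast_nonneg N)

end Pool.Agent.Results.MP_896029_ag.RandomNormCurves
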