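import Pool.Agent.N339.BL.NormThin

/-!
# The section conjecture for plane norm-form curves over thin families of fields

Let `P_{i j}` (`i, j = 0, 1, 2, …`) be generalised polynomials `P(t) = ∑ a_x t ^ x` (finitely many real
exponents and real coefficients) whose leading exponents are distinct, positive and not integers, with
positive leading coefficients; for example `P_{i j}(t) = t ^ ((i + j) ^ 2 + i + √2)`.  For a field `k` of
characteristic zero and `e_0, …, e_{m-1} ∈ k` put

`c_i(t) = ⌊P_{i 0}(t)⌋ e_0 + … + ⌊P_{i (m-1)}(t)⌋ e_{m-1}`   for the positive integers `t`.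

**Theorem.** There is ONE set `E` of natural density zero, also of relative density zero in the set of the
primes, such that for ALL finitely generated fields `k` of characteristic zero (in particular for all number
fields), ALL `(e_0, …, e_{m-1}) ∈ k ^ m` which are not zero, ALL `d ≥ 3` and all but finitely many `t` outside
`E` the following holds: `c_0(t) ≠ 0`, the polynomial `f = c_1(t) + c_2(t) T + … + c_{d+1}(t) T ^ d` is
irreducible of degree `d` over `k`, and the field `E_t = k[T]/(f)` of degree `d` over `k` has the following
property: for ALL divisors `n` of `d`, ALL finite extensions `L` of `k` whose degree is not divisible by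
`gcd(n, d / gcd(2, d))`, ALL `A_0, A_1, A_2 ∈ E_t` and ALL forms `Q` of degree `d / n` over `k` which do not
vanish at the points of intersection of the `d` conjugate lines `A_0 x_0 + A_1 x_1 + A_2 x_2 = 0` the plane curve
of degree `d`

`X : N_{E_t/k}(A_0 x_0 + A_1 x_1 + A_2 x_2) = c_0(t) Q(x_0, x_1, x_2) ⁿ`

has no point over `L`, and the fundamental groups of `X` over `L` (of its normalisation, if it is singular),
of all its open subcurves, and of all smooth curves (or varieties) over `L` which dominate it, have no
sections over `G_L`.  So there is nothing to show for the section conjecture and its valuative form: they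
hold for these curves over `L`, `L = k` included if `n` is not prime to `d / gcd(2, d)`.

The curve `X` meets the `d` conjugate lines with multiplicities divisible by `n`; for example, for `d = 4`
and `n = 2` it is a plane quartic for which they are bitangents, and over an algebraically closed field
all smooth plane quartics are of this form.  That `Q` does not vanish at the points of intersection of the
lines is part of the smoothness of `X`.  Here the fields `E_t` are different for different `t`; all
coefficients of `f` vary.  For `t ≤ N` there are only `N` vectors `(c_0(t), …, c_{d+1}(t))` among the about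
`N ^ (sum of the exponents)` integral vectors of this size.  The set `E` does not depend on `k`, `e` and `d`,
and the finitely many exceptions outside of `E` do not depend on `n`, `L`, `A` and `Q`.

The fundamental group is described through valuations.  Let `U` be a smooth geometrically connected
curve over `k` with function field `F`, let `Ω` be an algebraic closure of `F`, and let `F_U` be the
maximal extension of `F` inside `Ω` which is unramified over the closed points of `U`, that is, over
their local rings, which are valuation rings of `F`.  Then `π₁(U) = Gal(F_U/F)`, and the map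
`π₁(U) → G_k` is the restriction of automorphisms to the algebraic closure of `k` in `Ω`.

Proof.  Let `R ⊆ k` be a finitely generated ring with field of fractions `k` that contains the `e_j`.  There
are a number field `K` and a homomorphism `P : R → K` such that for almost all primes `v` of `K` there is an
embedding `k → K_v` which is congruent to `P` modulo `v²` on `R`.  It gives a discrete valuation ring `A` of
`k` with finite residue field.  If `v(P(c_0)) = 1` and the reduction of `f` is irreducible of degree `d`
modulo `v`, then the assertions hold: let `L/k` be finite and `l` a prime number with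
`v_l([L : k]) < v_l(gcd(n, d / gcd(2, d)))`.  There is a place `w` of `L` above `A` with ramification index
`e` and residue degree `r` such that `v_l(e) + v_l(r) ≤ v_l([L : k])`.  Put `ℓ = l ^ (v_l(e) + 1)`.  Then
`w(c_0) = e` is not divisible by `ℓ` and the degrees of the irreducible factors of `f` modulo `w` are
divisible by `gcd(2, ℓ) ℓ`, and one can apply the local theorem of the library
(`Pool.Agent.TH377.NC.Local`, used in `MP_e66f84_ag.NormCurvesAnyField`).  For the primes `v` of degree one,
unramified over `p`, the good classes modulo `p²` of the integral vectors `(⌊P_{i j}(t)⌋)` have density at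
least `(1/4d) (1/p - 1/p²)`, and the sum over these primes diverges.  The vectors are equidistributed modulo
all `q ≤ N ^ κ`, over the integers and over the primes in `(N, 2 N]` (exponential sums, helper666), and
Turan's sieve gives the theorem for one field `k` (up to isomorphism), one `e` and one `d` (helper92).  There
are only countably many of these, and a diagonal argument gives one exceptional set.
-/

set_option autoImplicit false

open Polynomial

namespace Pool.Agent.Results.MP_896029_ag.ThinNormCurves

universe u v w y

section definitions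

variable (k : Type u) (F : Type v) (Ω : Type w) [Field k] [Field F] [Field Ω] [Algebra k F]
  [Algebra F Ω] [Algebra k Ω]

/-- The inertia group of the valuation ring `W` of `Ω`, as a subgroup of `Gal(Ω/F)`: the
automorphisms of `Ω` over `F` that map `W` onto itself and act as the identity on its residue
field. -/
noncomputable def inertia (W : ValuationSubring Ω) : Subgroup (Ω ≃ₐ[F] Ω) :=
  (W.inertiaSubgroup F).map (W.decompositionSubgroup F).subtype

/-- `F_U`, for a set `U` of valuation rings of `F`: the elements of `Ω` fixed by the inertia groups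
of all valuation rings `W` of `Ω` with `W ∩ F ∈ U`.  If `Ω` is an algebraic closure of a field `F`
of characteristic zero, this is the maximal extension of `F` in `Ω` unramified over `U`. -/
noncomputable def unramified (U : Set (ValuationSubring F)) : IntermediateField F Ω :=
  ⨅ W : {W : ValuationSubring Ω // W.comap (algebraMap F Ω) ∈ U},
    IntermediateField.fixedField (inertia F Ω W.1)

/-- The map `τ : M → M` acts as `σ : K → K` on the elements that the fields `K` and `M` have in
common when they are regarded as subfields of `Ω` through `i` and `j`. -/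
def ActsAs {K M Ω : Type*} [Field K] [Field M] [Field Ω] (i : K →+* Ω) (j : M →+* Ω) (σ : K → K)
    (τ : M → M) : Prop :=
  ∀ c z, j z = i c → j (τ z) = i (σ c)

/-- Let `k ⊆ K ⊆ Ω` and `F ⊆ M ⊆ Ω` be fields.  A splitting of `Gal(M/F) → Gal(K/k)`: a continuous
homomorphism `s` from `Gal(K/k)` to `Gal(M/F)` such that `s(σ)` acts as `σ` on the elements of
`K ∩ M`. -/
structure Splitting (K M : Type*) [Field K] [Field M] [Algebra k K] [Algebra F M] [Algebra K Ω]
    [Algebra M Ω] where
  /-- the homomorphism `Gal(K/k) → Gal(M/F)` -/
  toHom : (K ≃ₐ[k] K) →* (M ≃ₐ[F] M)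
  cont : Continuous toHom
  compat : ∀ σ : K ≃ₐ[k] K, ActsAs (algebraMap K Ω) (algebraMap M Ω) σ (toHom σ)

/-- The sections of `π₁(U) = Gal(F_U/F) → G_k`: the continuous homomorphisms `s` from
`G_k = Gal(k̄/k)` to `Gal(F_U/F)`, where `k̄` is the algebraic closure of `k` in `Ω`, such that
`s(σ)` acts as `σ` on the elements of `k̄`. -/
def GaloisSection (U : Set (ValuationSubring F)) : Type w :=
  Splitting k F Ω (algebraicClosure k Ω) (unramified F Ω U)

end definitions

section curves

variable {K : Type u} [Field K]

/-- The equation `N(A₀ x₀ + A₁ x₁ + A₂ x₂) = a Q(x₀, x₁, x₂)ⁿ` for the norm `N` of the algebra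
`K[T]/(f)`, at a vector `x` with entries in an algebraically closed field `Ω` over `K`: the norm is the
product over the roots `θ` of `f` in `Ω` of the `A₀(θ) x₀ + A₁(θ) x₁ + A₂(θ) x₂`. -/
def OnCurve {Ω : Type*} [Field Ω] [Algebra K Ω] (f : K[X]) (A : Fin 3 → K[X]) (a : K)
    (Q : MvPolynomial (Fin 3) K) (n : ℕ) (x : Fin 3 → Ω) : Prop :=
  ((f.aroots Ω).map fun θ => ∑ j, aeval θ (A j) * x j).prod =
    algebraMap K Ω a * MvPolynomial.aeval x Q ^ n

/-- The form `Q` does not vanish at the points of intersection of two of the lines
`A₀(θ) x₀ + A₁(θ) x₁ + A₂(θ) x₂ = 0`, for the roots `θ` of `f`.  (In particular these lines are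
different.) -/
def Transversal (f : K[X]) (A : Fin 3 → K[X]) (Q : MvPolynomial (Fin 3) K) : Prop :=
  ∀ θ θ' : AlgebraicClosure K, aeval θ f = 0 → aeval θ' f = 0 → θ ≠ θ' →
    MvPolynomial.aeval (crossProduct (fun j => aeval θ (A j)) (fun j => aeval θ' (A j))) Q ≠ 0

/-- The curve has no point over `L`. -/
def NoPoint (L : Type y) [Field L] [Algebra K L] (f : K[X]) (A : Fin 3 → K[X]) (a : K)
    (Q : MvPolynomial (Fin 3) K) (n : ℕ) : Prop :=
  ∀ x : Fin 3 → L, x ≠ 0 → ¬ OnCurve f A a Q n fun j => algebraMap L (AlgebraicClosure L) (x j)

/-- Let `F` be any field over `L` that contains a point of the curve, for instance the function field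
of the curve over `L`, or of a curve that dominates it, and let `Ω` be an algebraic closure of `F`.
Then for every set `U` of valuation rings of `F` over `L` there is no section of `π₁(U) → G_L`.  If `F`
is the function field of the curve, such `U` are given by its normalisation and by all its open
subcurves. -/
def NoSection (L : Type y) [Field L] [Algebra K L] (f : K[X]) (A : Fin 3 → K[X]) (a : K)
    (Q : MvPolynomial (Fin 3) K) (n : ℕ) : Prop :=
  ∀ (F : Type v) (Ω : Type w) [Field F] [Field Ω] [Algebra L F] [Algebra F Ω] [Algebra L Ω]
    [Algebra K Ω] [IsScalarTower L F Ω] [IsScalarTower K L Ω] [IsAlgClosure F Ω] (x : Fin 3 → F)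
    (U : Set (ValuationSubring F)), x ≠ 0 → OnCurve f A a Q n (fun j => algebraMap F Ω (x j)) →
      (∀ O ∈ U, ∀ c : L, algebraMap L F c ∈ O) → IsEmpty (GaloisSection L F Ω U)

end curves

/-- The polynomial `c_1 + c_2 T + … + c_{d+1} T ^ d`. -/
noncomputable def poly {k : Type} [Field k] {d : ℕ} (c : Fin (d + 2) → k) : k[X] :=
  ∑ i : Fin (d + 1), C (c i.succ) * X ^ (i : ℕ)

/-- All assertions about the vector `c`: `c_0 ≠ 0`, the polynomial `f = c_1 + c_2 T + … + c_{d+1} T ^ d` is
irreducible of degree `d` over `k`, and for all `n`, `q` with `n q = d`, all finite extensions `L` of `k` such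
that `gcd(n, d / gcd(2, d))` does not divide `[L : k]`, all `A_0, A_1, A_2 ∈ k[T]/(f)` and all forms `Q` of
degree `q` over `k` that do not vanish at the points of intersection of the conjugate lines, the curve
`N(A_0 x_0 + A_1 x_1 + A_2 x_2) = c_0 Qⁿ` has no points and no sections over `L`. -/
def Holds {k : Type} [Field k] (d : ℕ) (c : Fin (d + 2) → k) : Prop :=
  c 0 ≠ 0 ∧ (poly c).natDegree = d ∧ Irreducible (poly c) ∧
    ∀ n q : ℕ, n * q = d → ∀ (L : Type y) [Field L] [Algebra k L] [FiniteDimensional k L],
      ¬ Nat.gcd n (d / Nat.gcd 2 d) ∣ Module.finrank k L →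
        ∀ (A : Fin 3 → k[X]) (Q : MvPolynomial (Fin 3) k), Q.IsHomogeneous q →
          Transversal (poly c) A Q →
            NoPoint L (poly c) A (c 0) Q n ∧ NoSection.{0, v, w, y} L (poly c) A (c 0) Q n

/-- The field `k` is finitely generated (as a field). -/
def FinitelyGenerated (k : Type) [Field k] : Prop :=
  ∃ s : Finset k, Subfield.closure (s : Set k) = ⊤

/-- `c` is the largest exponent of the generalised polynomial `∑ a_x t ^ x`; it is positive and not an
integer and has a positive coefficient. -/
def Admissible (F : Finset ℝ) (a : ℝ → ℝ) (c : ℝ) : Prop :=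
  c ∈ F ∧ (∀ x ∈ F, x ≤ c) ∧ 0 < c ∧ (∀ m : ℕ, c ≠ m) ∧ 0 < a c

/-- The vector `(c_0(t), …, c_{d+1}(t))`, `c_i(t) = ∑_j ⌊P_{i j}(t)⌋ e_j`, where `P_{i j}` is the generalised
polynomial with the exponents `F i j` and the coefficients `a i j`. -/
noncomputable def coeffs {k : Type} [Field k] {m : ℕ} (e : Fin m → k) (F : ℕ → ℕ → Finset ℝ)
    (a : ℕ → ℕ → ℝ → ℝ) (d t : ℕ) : Fin (d + 2) → k :=
  fun i => ∑ j : Fin m, ((⌊∑ x ∈ F i j, a i j x * (t : ℝ) ^ x⌋ : ℤ) : k) * e j

/-- `E` has density zero relative to the sets `S N`. -/
def NullIn (S : ℕ → Finset ℕ) (E : Set ℕ) : Prop :=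
  ∀ ε : ℝ, 0 < ε → ∃ N₀ : ℕ, ∀ N : ℕ, N₀ ≤ N →
    ({t : ℕ | t ∈ S N ∧ t ∈ E}.ncard : ℝ) ≤ ε * (S N).card

section proof

open Pool.Agent.TH377.Sup Pool.Agent.N339.BS Pool.Agent.N339.BL

/-- the assertions of the helper files -/
theorem holds_of_good {k : Type} [Field k] [CharZero k] {d : ℕ} (hd : 0 < d)
    {c : Fin (d + 2) → k} (h : GoodL k d c) : Holds.{v, w, y} d c := by
  obtain ⟨h1, h2, h3, h4⟩ := h
  refine ⟨h1, pol_natDegree _ h2, h3, fun n q hnq L _ _ _ hL A Q hQ htr => ?_⟩
  obtain ⟨g1, g2⟩ := normAll_of_data.{v, w, y} d hd _ _ h4 n q hnq L hL A Q hQ htr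
  refine ⟨fun x hx hon => g1 x hx hon, ?_⟩
  intro F Ω _ _ _ _ _ _ _ _ _ x U hx hon hU
  exact ⟨fun s => (g2 F Ω x U hx hon hU).false ⟨s.toHom, s.cont, s.compat⟩⟩

end proof

/-- Let `P_{i j}` (`i, j ∈ ℕ`) be generalised polynomials whose leading exponents are distinct, positive and
not integers and whose leading coefficients are positive.  There is one set `E` of density zero, also in
the primes, such that for all finitely generated fields `k` of characteristic zero, all `m` and all
`e ∈ k ^ m`, `e ≠ 0`, all `d ≥ 3` and all but finitely many `t` not in `E` the vector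
`c_i(t) = ∑_j ⌊P_{i j}(t)⌋ e_j` (`i ≤ d + 1`, `j < m`) has the following properties: `c_0(t) ≠ 0`, the
polynomial `f = c_1(t) + … + c_{d+1}(t) T ^ d` is irreducible of degree `d` over `k`, and for all `n ∣ d`, all
finite extensions `L` of `k` of a degree not divisible by `gcd(n, d / gcd(2, d))`, all `A_j ∈ k[T]/(f)` and all
forms `Q` over `k` of degree `d / n` which do not vanish at the points of intersection of the conjugate
lines, the plane curve `N(A_0 x_0 + A_1 x_1 + A_2 x_2) = c_0(t) Qⁿ` over `L` has no points, and the
fundamental groups of its open subcurves and of the smooth curves over `L` that dominate it have no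
sections. -/
theorem result (F : ℕ → ℕ → Finset ℝ) (a : ℕ → ℕ → ℝ → ℝ) (c : ℕ → ℕ → ℝ)
    (h : ∀ i j, Admissible (F i j) (a i j) (c i j))
    (hc : Function.Injective fun z : ℕ × ℕ => c z.1 z.2) :
    ∃ E : Set ℕ, NullIn (fun N => Finset.Ioc N (2 * N)) E ∧
      NullIn (fun N => (Finset.Ioc N (2 * N)).filter Nat.Prime) E ∧
      ∀ (k : Type) [Field k] [CharZero k], FinitelyGenerated k →
        ∀ (m : ℕ) (e : Fin m → k), e ≠ 0 → ∀ d : ℕ, 3 ≤ d →
          {t : ℕ | t ∉ E ∧ ¬ Holds.{v, w, y} d (coeffs e F a d t)}.Finite := by
  obtain ⟨E, h1, h2, h3⟩ := Pool.Agent.N339.BL.main_L F a c h hc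
  refine ⟨E, h1, h2, fun k _ _ hk m e he d hd => (h3 k hk m e he d hd).subset ?_⟩
  rintro t ⟨ht, ht'⟩
  exact ⟨ht, fun hg => ht' (holds_of_good.{v, w, y} (by omega) hg)⟩

end Pool.Agent.Results.MP_896029_ag.ThinNormCurves
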